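import Pool.Agent.H38.Poly.Proof

theorem Pool.Agent.Results.MP_27056a_lc.Pos.result (d : ℕ) (hd : 2 ≤ d) :
    ∃ (X : Type) (_ : MeasurableSpace X) (_ : StandardBorelSpace X) (_ : AddAction (Fin d → ℤ) X),
      (∀ u : Fin d → ℤ, Measurable fun x : X => u +ᵥ x) ∧
      (∀ (u : Fin d → ℤ) (x : X), u +ᵥ x = x → u = 0) ∧
      (∀ i : Fin d, ∃ c : X → Bool, Measurable c ∧
        ∀ x, c ((Pi.single i 1 : Fin d → ℤ) +ᵥ x) ≠ c x) ∧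
      ¬ ∃ c : X → Fin (2 ^ d), Measurable c ∧ ∀ (x : X) (k : Fin (2 ^ d)),
        ∃ v : Fin d → ℤ, (∀ i, v i = 0 ∨ v i = 1) ∧ c (v +ᵥ x) = k :=
  Pool.Agent.H38.Poly.main hd
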